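import Mathlib

open scoped commutatorElement

namespace Pool.Agent.Results.MP_b1a016_al.Full

universe u

variable {G : Type u} [Group G] [TopologicalSpace G] [IsTopologicalGroup G]

/-- closure of the subgroup generated by all closed non-normal subgroups -/
def Stilde (G : Type u) [Group G] [TopologicalSpace G] [IsTopologicalGroup G] : Subgroup G :=
  (sSup {L : Subgroup G | IsClosed (L : Set G) ∧ ¬ L.Normal}).topologicalClosure

lemma comm_of_mem [T2Space G] {a b z : G} (hz : z ∈ (Subgroup.zpowers a).topologicalClosure)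
    (h : Commute a b) : Commute z b := by
  have : closure (Subgroup.zpowers a : Set G) ⊆ {w | w * b = b * w} := by
    apply closure_minimal _ (isClosed_eq (by fun_prop) (by fun_prop))
    rintro _ ⟨n, rfl⟩
    exact h.zpow_left n
  exact this hz

lemma pow_of_mem [T2Space G] {a z : G} {q : ℕ} (hz : z ∈ (Subgroup.zpowers a).topologicalClosure)
    (h : a ^ q = 1) : z ^ q = 1 := by
  have : closure (Subgroup.zpowers a : Set G) ⊆ {w | w ^ q = 1} := by
    apply closure_minimal _ (isClosed_eq (continuous_pow q) continuous_const)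
    rintro _ ⟨n, rfl⟩
    show (a ^ n) ^ q = 1
    rw [← zpow_natCast, ← zpow_mul, mul_comm, zpow_mul, zpow_natCast, h, one_zpow]
  exact this hz

lemma key [T2Space G] [CompactSpace G] [TotallyDisconnectedSpace G] {p : ℕ} (hp : p.Prime)
    (hG : ∀ N : OpenNormalSubgroup G, IsPGroup p (G ⧸ N.toSubgroup)) (N : OpenNormalSubgroup G)
    {k : ℕ} (hq : ∀ g : G, g ^ p ^ k ∈ N) {x y : G}
    (hx : (Subgroup.zpowers x).topologicalClosure.Normal)
    (hy : (Subgroup.zpowers y).topologicalClosure.Normal) (hc : ⁅x, y⁆ ∉ N) :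
    (x ^ p ^ k) ^ p ^ k = 1 := by
  have mx : x ∈ (Subgroup.zpowers x).topologicalClosure :=
    Subgroup.le_topologicalClosure _ (Subgroup.mem_zpowers x)
  have my : y ∈ (Subgroup.zpowers y).topologicalClosure :=
    Subgroup.le_topologicalClosure _ (Subgroup.mem_zpowers y)
  have cx : ⁅x, y⁆ ∈ (Subgroup.zpowers x).topologicalClosure := by
    have := mul_mem mx (hx.conj_mem _ (inv_mem mx) y)
    simpa only [commutatorElement_def, mul_assoc] using this
  have cy : ⁅x, y⁆ ∈ (Subgroup.zpowers y).topologicalClosure :=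
    mul_mem (hy.conj_mem _ my x) (inv_mem my)
  have e0 : x * y = ⁅x, y⁆ * y * x := by simp [commutatorElement_def]
  generalize ⁅x, y⁆ = c at *
  have h1 : x ^ p ^ k ∈ (Subgroup.zpowers c).topologicalClosure := by
    by_contra hn
    obtain ⟨N', hN'⟩ := ProfiniteGrp.exist_openNormalSubgroup_sub_open_nhds_of_one
      (U := {g : G | x ^ p ^ k * g ∉ (Subgroup.zpowers c).topologicalClosure})
      ((Subgroup.isClosed_topologicalClosure _).isOpen_compl.preimage (by fun_prop))
      (by simpa using hn)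
    let M : OpenNormalSubgroup G := N' ⊓ N
    obtain ⟨_, hm, m, rfl⟩ := mem_closure_iff.1 cx {g : G | c⁻¹ * g ∈ M}
      (M.isOpen'.preimage (by fun_prop)) (by simp)
    let π := QuotientGroup.mk' M.toSubgroup
    have hcm : π c = π x ^ m := by
      rw [← map_zpow]; exact QuotientGroup.eq.2 hm
    obtain ⟨j, hj⟩ := hG M (π x)
    obtain ⟨i, -, hi⟩ := (Nat.dvd_prime_pow hp).1
      (show Int.gcd m (p ^ j : ℕ) ∣ p ^ j from Int.natCast_dvd_natCast.1 (Int.gcd_dvd_right _ _))
    rcases le_total k i with hki | hki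
    · obtain ⟨r, hr⟩ : ((p ^ k : ℕ) : ℤ) ∣ m :=
        (Int.natCast_dvd_natCast.2 (hi ▸ pow_dvd_pow p hki)).trans (Int.gcd_dvd_left _ _)
      have h2 : x ^ m ∈ N := by
        rw [hr, zpow_mul, zpow_natCast]
        exact N.toSubgroup.zpow_mem (hq x) r
      have h3 : c⁻¹ * x ^ m ∈ N := hm.2
      apply hc
      have := N.toSubgroup.mul_mem h2 (N.toSubgroup.inv_mem h3)
      rw [mul_inv_rev, inv_inv, mul_inv_cancel_left] at this
      exact this
    · have h2 : π x ^ p ^ i = π c ^ (Int.gcdA m (p ^ j : ℕ)) := by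
        rw [← zpow_natCast, ← hi, Int.gcd_eq_gcd_ab, zpow_add, zpow_mul, zpow_mul, zpow_natCast,
          hj, one_zpow, mul_one, hcm]
      obtain ⟨r, rfl⟩ := Nat.exists_eq_add_of_le hki
      have h3 : π (x ^ p ^ (i + r)) = π ((c ^ (Int.gcdA m (p ^ j : ℕ))) ^ p ^ r) := by
        rw [map_pow, map_pow, map_zpow, pow_add, pow_mul, h2]
      have h4 : (x ^ p ^ (i + r))⁻¹ * (c ^ (Int.gcdA m (p ^ j : ℕ))) ^ p ^ r ∈ M :=
        QuotientGroup.eq.1 h3
      apply hN' h4.1
      rw [mul_inv_cancel_left]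
      exact Subgroup.le_topologicalClosure _
        (pow_mem (Subgroup.zpow_mem _ (Subgroup.mem_zpowers c) _) _)
  have c1 : Commute c x := comm_of_mem cx (Commute.refl x)
  have c2 : Commute c y := comm_of_mem cy (Commute.refl y)
  have e1 : ∀ n : ℕ, x ^ n * y = c ^ n * y * x ^ n := by
    intro n
    induction n with
    | zero => simp
    | succ n ih =>
      calc x ^ (n + 1) * y = x * (x ^ n * y) := by rw [pow_succ', mul_assoc]
        _ = (x * c ^ n) * y * x ^ n := by rw [ih]; simp only [mul_assoc]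
        _ = c ^ n * (x * y) * x ^ n := by rw [← (c1.pow_left n).eq]; simp only [mul_assoc]
        _ = _ := by rw [e0, pow_succ, pow_succ' x]; simp only [mul_assoc]
  have h5 : c ^ p ^ k = 1 := by
    have := e1 (p ^ k)
    rw [(comm_of_mem h1 c2).eq, mul_assoc] at this
    exact (mul_eq_right.1 this.symm)
  exact pow_of_mem h1 h5

theorem result {G : Type u} [Group G] [TopologicalSpace G] [IsTopologicalGroup G] [T2Space G]
    [CompactSpace G] [TotallyDisconnectedSpace G] {p : ℕ} (hp : p.Prime)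
    (hG : ∀ N : OpenNormalSubgroup G, IsPGroup p (G ⧸ N.toSubgroup))
    (hS : Stilde G ≠ ⊤) (hna : ∃ a b : G, a * b ≠ b * a) :
    ∃ e : ℕ, 0 < e ∧ ∀ g : G, g ^ e = 1 := by
  have hn : ∀ x ∉ Stilde G, (Subgroup.zpowers x).topologicalClosure.Normal := by
    intro x hx
    by_contra h
    exact hx (Subgroup.le_topologicalClosure _ (le_sSup (s := {L : Subgroup G |
      IsClosed (L : Set G) ∧ ¬ L.Normal}) ⟨Subgroup.isClosed_topologicalClosure _, h⟩
      (Subgroup.le_topologicalClosure _ (Subgroup.mem_zpowers x))))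
  obtain ⟨x, hx, y, hy, hxy⟩ : ∃ x ∉ Stilde G, ∃ y ∉ Stilde G, ¬ Commute x y := by
    by_contra hc
    have hc' : ∀ x ∉ Stilde G, ∀ y ∉ Stilde G, Commute x y := fun x hx y hy => by
      by_contra h; exact hc ⟨x, hx, y, hy, h⟩
    obtain ⟨t, ht⟩ : ∃ t, t ∉ Stilde G := by
      by_contra h
      exact hS ((Subgroup.eq_top_iff' _).2 fun t => by by_contra h'; exact h ⟨t, h'⟩)
    have step : ∀ a : G, (∀ y ∉ Stilde G, Commute a y) → ∀ g, Commute a g := by
      intro a ha g
      by_cases hg : g ∈ Stilde G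
      · have := (ha (g * t) fun h => ht ((Subgroup.mul_mem_cancel_left _ hg).1 h)).mul_right
          (ha t ht).inv_right
        simpa using this
      · exact ha g hg
    obtain ⟨a, b, hab⟩ := hna
    exact hab (step a (fun y hy => (step y (hc' y hy) a).symm) b)
  obtain ⟨N, hN⟩ := ProfiniteGrp.exist_openNormalSubgroup_sub_open_nhds_of_one
    (U := {g : G | x * g ∉ Stilde G} ∩ {g | g ≠ ⁅x, y⁆})
    (((Subgroup.isClosed_topologicalClosure _).isOpen_compl.preimage (by fun_prop)).inter
      isOpen_ne)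
    ⟨by simpa using hx, fun h => hxy (commutatorElement_eq_one_iff_commute.1 h.symm)⟩
  have : Fact p.Prime := ⟨hp⟩
  have : Finite (G ⧸ N.toSubgroup) := Subgroup.quotient_finite_of_isOpen _ N.isOpen'
  obtain ⟨k, hk⟩ := IsPGroup.iff_card.1 (hG N)
  have hq : ∀ g : G, g ^ p ^ k ∈ N := by
    intro g
    have : ((g ^ p ^ k : G) : G ⧸ N.toSubgroup) = 1 := by
      rw [QuotientGroup.mk_pow, ← hk, pow_card_eq_one']
    exact (QuotientGroup.eq_one_iff _).1 this
  have hall : ∀ n ∈ N, ((x * n) ^ p ^ k) ^ p ^ k = 1 := by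
    intro n hnN
    refine key hp hG N hq (hn _ (hN hnN).1) (hn y hy) fun h => (hN ?_).2 rfl
    let π := QuotientGroup.mk' N.toSubgroup
    have e1 : π n = 1 := (QuotientGroup.eq_one_iff _).2 hnN
    have e2 : π ⁅x * n, y⁆ = 1 := (QuotientGroup.eq_one_iff _).2 h
    rw [map_commutatorElement, map_mul, e1, mul_one, ← map_commutatorElement] at e2
    exact (QuotientGroup.eq_one_iff _).1 e2
  refine ⟨p ^ k * (p ^ k * p ^ k) * (p ^ k * p ^ k), by have := hp.pos; positivity, fun g => ?_⟩
  have := hn x hx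
  let π := QuotientGroup.mk' (Subgroup.zpowers x).topologicalClosure
  have e1 : π x = 1 := (QuotientGroup.eq_one_iff _).2
    (Subgroup.le_topologicalClosure _ (Subgroup.mem_zpowers x))
  have e2 := congrArg π (hall _ (hq g))
  rw [map_pow, map_pow, map_mul, e1, one_mul, map_one, ← map_pow, ← map_pow] at e2
  have e3 := hall 1 N.toSubgroup.one_mem
  rw [mul_one, ← pow_mul] at e3
  have := pow_of_mem ((QuotientGroup.eq_one_iff _).1 e2) e3
  simpa only [← pow_mul, mul_assoc] using this

end Pool.Agent.Results.MP_b1a016_al.Full
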